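import Pool.Agent.Helper38.TH.Goals4
import Pool.Agent.Helper56.M3.QPSM
import Pool.Agent.Helper83.PP.CLAB

/-!
# Project TH (MP_fc6b1e_nt), packet G4_PSM: bound for the small moduli (HA) for a fixed `b`

The proof is that of `Q_PSM` (`Pool/Agent/Helper56/M3/QPSM.lean`, whose lemmas are used); `HA` does not depend on `c`.
-/

set_option autoImplicit false

namespace Pool.Agent.Helper37.TH

open Finset Pool.Agent.Helper17.PP Pool.Agent.Helper17.PP0 Pool.Agent.Helper17.PP2
open Pool.Agent.Helper11.M3 Pool.Agent.Helper56.M3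
open Pool.Agent.Helper38.TH (HA Da)

section

variable {p : ℕ} {B B₀ k U Λ C : Type} [Field k] [Fintype k] [Algebra (ZMod p) k]
    [AddCommGroup U] [Module k U] [Fintype U] [AddCommGroup Λ] [Module k Λ] [Fintype Λ]
    [AddCommGroup C] (S : Sys p B B₀ k U Λ C)

theorem HA_lt {I : ℕ} {b : Finset B} {q P₁ : B} {χ : AddChar Λ ℂ}
    {c y : B → k} (h : HA S I b q P₁ χ c y) : S.nm (DD S b q P₁ y) < 2 ^ (2 * I) :=
  Nat.lt_pow_of_log_lt (by norm_num) h.2

theorem HA_ne {I : ℕ} {b : Finset B} {q P₁ : B} {χ : AddChar Λ ℂ}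
    {c y : B → k} (h : HA S I b q P₁ χ c y) : (DD S b q P₁ y).Nonempty ∨ χ ≠ 1 := by
  classical
  obtain ⟨h1 | ⟨r, hr, hy⟩, -⟩ := h
  · exact Or.inr h1
  · left
    refine ⟨r, ?_⟩
    unfold DD
    exact Finset.mem_filter.2 ⟨hr, hy⟩

end

open Classical in
theorem g4_psm : Pool.Agent.Helper38.TH.G4_PSM := by
  intro p _ B B₀ k U Λ C _ _ _ _ _ _ _ _ _ _ S ψ I P b q P₁ t hbP hq _ _
  obtain ⟨hcard, -, h3, -, -⟩ := Pool.Agent.Helper83.PP.c_lab B k P
  have hQ : (0 : ℝ) < (Fintype.card k : ℝ) := by exact_mod_cast Fintype.card_pos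
  have hL : (0 : ℝ) < ((lab k P).card : ℝ) := by
    rw [hcard]
    push_cast
    positivity
  have hΛ : (1 : ℝ) ≤ (Fintype.card Λ : ℝ) := by exact_mod_cast Fintype.card_pos
  set W : AddChar Λ ℂ → (B → k) → ℂ := fun χ y => ∑ x : U, ∑ c ∈ lab k P,
    if HA S I b q P₁ χ c y then
      smd S ψ χ b (DD S b q P₁ y) x (cutd S (S.bl q) q P₁ t c) y else 0 with hW
  set G : AddChar Λ ℂ → Finset (B → k) := fun χ => (lab k P).filter fun y ↦
        ((DD S b q P₁ y).Nonempty ∨ χ ≠ 1) ∧
        S.nm (DD S b q P₁ y) < 2 ^ (2 * I) ∧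
        (∀ x : U, S.fU ψ χ (DD S b q P₁ y) y x = 1) ∧
        ∀ q'' ∈ rs₄ S b q P₁, y q'' = 0 → ∀ z : k,
          S.fB ψ χ (DD S b q P₁ y) y q'' z = 1 with hG
  have hful : ful₄ S ψ P b q P₁ t 0 0 (HA S I b q P₁) =
      ((Fintype.card k : ℂ) ^ (rs₄ S b q P₁).card / (Fintype.card Λ * ((lab k P).card : ℂ) ^ 2)) *
        ∑ χ : AddChar Λ ℂ, ∑ y ∈ lab k P, W χ y := by
    unfold ful₄
    congr 1
    rw [Finset.sum_comm]
    refine Finset.sum_congr rfl fun χ _ => ?_
    have h5 : ∀ x ∈ (Finset.univ : Finset U), ∑ c ∈ lab k P,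
        ∑ y ∈ lab k P with HA S I b q P₁ χ c y,
          ph S ψ χ b x (cutd S (S.bl q) q P₁ t c) (cute S (S.bl q) q P₁ 0 0 y) =
        ∑ y ∈ lab k P, ∑ c ∈ lab k P, if HA S I b q P₁ χ c y then
          smd S ψ χ b (DD S b q P₁ y) x (cutd S (S.bl q) q P₁ t c) y else 0 := by
      intro x _
      rw [Finset.sum_comm]
      refine Finset.sum_congr rfl fun c _ => ?_
      rw [Finset.sum_filter]
      refine Finset.sum_congr rfl fun y _ => ?_
      rw [ph_eq S ψ χ hq]
    rw [Finset.sum_congr rfl h5, Finset.sum_comm]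
  have hzero : ∀ χ : AddChar Λ ℂ, ∀ y ∈ lab k P, y ∉ G χ → W χ y = 0 := by
    intro χ y hy hyG
    rw [hW]
    by_cases hn : (DD S b q P₁ y).Nonempty ∨ χ ≠ 1
    · by_cases hm : S.nm (DD S b q P₁ y) < 2 ^ (2 * I)
      · by_cases hu : ∀ x : U, S.fU ψ χ (DD S b q P₁ y) y x = 1
        · have hb : ¬ ∀ q'' ∈ rs₄ S b q P₁, y q'' = 0 → ∀ z : k,
              S.fB ψ χ (DD S b q P₁ y) y q'' z = 1 := by
            intro h
            exact hyG (Finset.mem_filter.2 ⟨hy, hn, hm, hu, h⟩)
          push Not at hb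
          obtain ⟨r, hr, hry, z, hz⟩ := hb
          have hrb : r ∈ b := (mem_rs₄ S hr).1
          have hrD : r ∉ DD S b q P₁ y := by
            intro h
            unfold DD at h
            exact (Finset.mem_filter.1 h).2 hry
          refine Finset.sum_eq_zero fun x _ => ?_
          refine h3 (fun c => if HA S I b q P₁ χ c y then
            smd S ψ χ b (DD S b q P₁ y) x (cutd S (S.bl q) q P₁ t c) y else 0) _ hz (sgl r z)
            ?_ fun c _ => ?_
          · rw [mem_lab]
            intro s hs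
            refine sgl_ne ?_ z
            rintro rfl
            exact hs (hbP hrb)
          · have h5 : cutd S (S.bl q) q P₁ t (c + sgl r z) =
                fun s => cutd S (S.bl q) q P₁ t c s + sgl r z s :=
              funext fun s => cutd_add S b q P₁ t c hr z s
            by_cases hF : HA S I b q P₁ χ c y
            · have hF' : HA S I b q P₁ χ (c + sgl r z) y := hF
              show (if HA S I b q P₁ χ (c + sgl r z) y then _ else _) = _ *
                (if HA S I b q P₁ χ c y then _ else _)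
              rw [if_pos hF, if_pos hF', h5]
              exact smd_addc S ψ χ b _ x _ y hrb hrD z
            · have hF' : ¬ HA S I b q P₁ χ (c + sgl r z) y := fun h =>
                hF (h)
              show (if HA S I b q P₁ χ (c + sgl r z) y then _ else _) = _ *
                (if HA S I b q P₁ χ c y then _ else _)
              rw [if_neg hF, if_neg hF', mul_zero]
        · push Not at hu
          obtain ⟨u, hu⟩ := hu
          show ∑ x : U, ∑ c ∈ lab k P, (if HA S I b q P₁ χ c y then _ else _) = 0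
          rw [Finset.sum_comm]
          refine Finset.sum_eq_zero fun c _ => ?_
          by_cases hF : HA S I b q P₁ χ c y
          · simp only [if_pos hF]
            have h5 : ∑ x : U, smd S ψ χ b (DD S b q P₁ y) (x + u)
                (cutd S (S.bl q) q P₁ t c) y =
                ∑ x : U, smd S ψ χ b (DD S b q P₁ y) x (cutd S (S.bl q) q P₁ t c) y :=
              Equiv.sum_comp (Equiv.addRight u) fun x =>
                smd S ψ χ b (DD S b q P₁ y) x (cutd S (S.bl q) q P₁ t c) y
            simp only [smd_add] at h5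
            rw [← Finset.mul_sum] at h5
            by_contra hne
            exact hu (mul_right_cancel₀ hne (by rw [h5, one_mul]))
          · simp only [if_neg hF]
            exact Finset.sum_const_zero
      · refine Finset.sum_eq_zero fun x _ => Finset.sum_eq_zero fun c _ => ?_
        exact if_neg fun h => hm (HA_lt S h)
    · refine Finset.sum_eq_zero fun x _ => Finset.sum_eq_zero fun c _ => ?_
      exact if_neg fun h => hn (HA_ne S h)
  have hnorm : ∀ χ : AddChar Λ ℂ, ∀ y : B → k, ‖W χ y‖ ≤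
      (Fintype.card U : ℝ) * (lab k P).card := by
    intro χ y
    rw [hW]
    refine (norm_sum_le _ _).trans ?_
    have h5 : ∀ x ∈ (Finset.univ : Finset U), ‖∑ c ∈ lab k P,
        if HA S I b q P₁ χ c y then
          smd S ψ χ b (DD S b q P₁ y) x (cutd S (S.bl q) q P₁ t c) y else 0‖ ≤
        ((lab k P).card : ℝ) := by
      intro x _
      refine (norm_sum_le _ _).trans ?_
      have h6 : ∀ c ∈ lab k P, ‖if HA S I b q P₁ χ c y then
          smd S ψ χ b (DD S b q P₁ y) x (cutd S (S.bl q) q P₁ t c) y else 0‖ ≤ 1 := by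
        intro c _
        by_cases hF : HA S I b q P₁ χ c y
        · rw [if_pos hF]
          exact norm_smd S ψ χ b _ x _ y
        · rw [if_neg hF, norm_zero]
          exact zero_le_one
      refine (Finset.sum_le_sum h6).trans ?_
      rw [Finset.sum_const, nsmul_eq_mul, mul_one]
    refine (Finset.sum_le_sum h5).trans ?_
    rw [Finset.sum_const, nsmul_eq_mul, Finset.card_univ]
  have htot : ‖∑ χ : AddChar Λ ℂ, ∑ y ∈ lab k P, W χ y‖ ≤
      (∑ χ : AddChar Λ ℂ, ((G χ).card : ℝ)) * ((Fintype.card U : ℝ) * (lab k P).card) := by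
    refine (norm_sum_le _ _).trans ?_
    rw [Finset.sum_mul]
    refine Finset.sum_le_sum fun χ _ => ?_
    have hGY : G χ ⊆ lab k P := Finset.filter_subset _ _
    rw [← Finset.sum_subset hGY (hzero χ)]
    refine (norm_sum_le _ _).trans ?_
    refine (Finset.sum_le_sum fun y _ => hnorm χ y).trans ?_
    rw [Finset.sum_const, nsmul_eq_mul]
  have hcoef : ‖(Fintype.card k : ℂ) ^ (rs₄ S b q P₁).card /
      (Fintype.card Λ * ((lab k P).card : ℂ) ^ 2)‖ ≤
      (Fintype.card k : ℝ) ^ (rs₄ S b q P₁).card / ((lab k P).card : ℝ) ^ 2 := by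
    rw [norm_div, norm_pow, norm_mul, norm_pow, Complex.norm_natCast, Complex.norm_natCast,
      Complex.norm_natCast]
    refine div_le_div_of_nonneg_left (by positivity) (by positivity) ?_
    nlinarith [pow_pos hL 2]
  have key : ∀ A u Q L : ℝ, 0 < L → Q / L ^ 2 * (A * (u * L)) = u * Q / L * A := by
    intro A u Q L h
    field_simp
  have hfin : (Fintype.card k : ℝ) ^ (rs₄ S b q P₁).card / ((lab k P).card : ℝ) ^ 2 *
      ((∑ χ : AddChar Λ ℂ, ((G χ).card : ℝ)) * ((Fintype.card U : ℝ) * (lab k P).card)) =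
      (Fintype.card U * (Fintype.card k : ℝ) ^ (rs₄ S b q P₁).card / (lab k P).card) *
        ∑ χ : AddChar Λ ℂ, ((G χ).card : ℝ) := key _ _ _ _ hL
  rw [hful, norm_mul]
  refine (mul_le_mul hcoef htot (norm_nonneg _) (by positivity)).trans (le_of_eq ?_)
  exact hfin

end Pool.Agent.Helper37.TH
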